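import Pool.Agent.helper82.CH.SpecN

/-!
# Row chn:DFL: discriminants
-/

set_option autoImplicit false

open NumberField Complex Pool.Agent.UN

namespace Pool.Agent.CH

/-- the different of `M / L` contains `m` -/
theorem DFL_mem (L M : Type) [Field L] [NumberField L] [Field M] [NumberField M] [Algebra L M] (m : ℕ) (z : M)
    (hm : 0 < m) (hz : IsPrimitiveRoot z m) (hadj : Algebra.adjoin L {z} = ⊤) :
    ((m : ℕ) : 𝓞 M) ∈ differentIdeal (𝓞 L) (𝓞 M) := by
  haveI : NeZero m := ⟨hm.ne'⟩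
  obtain ⟨w, hw⟩ : ∃ w : 𝓞 M, w = hz.toInteger := ⟨_, rfl⟩
  have hwz : algebraMap (𝓞 M) M w = z := by rw [hw]; rfl
  have hwm : w ^ m = 1 := by
    apply RingOfIntegers.ext
    show algebraMap (𝓞 M) M (w ^ m) = algebraMap (𝓞 M) M 1
    rw [map_pow, hwz, hz.pow_eq_one, map_one]
  have h1 := aeval_derivative_mem_differentIdeal (𝓞 L) L M w (by rw [hwz]; exact hadj)
  have hint : IsIntegral (𝓞 L) w := Algebra.IsIntegral.isIntegral w
  have h2 : minpoly (𝓞 L) w ∣ (Polynomial.X ^ m - 1 : Polynomial (𝓞 L)) := by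
    apply minpoly.isIntegrallyClosed_dvd hint
    rw [map_sub, map_pow, Polynomial.aeval_X, map_one, hwm, sub_self]
  obtain ⟨g, hg⟩ := h2
  have h3 := congrArg (fun p => Polynomial.aeval w (Polynomial.derivative p)) hg
  simp only [Polynomial.derivative_sub, Polynomial.derivative_X_pow, Polynomial.derivative_one, sub_zero,
    Polynomial.derivative_mul, map_add, map_mul, minpoly.aeval, zero_mul, add_zero, map_pow, Polynomial.aeval_X,
    Polynomial.aeval_C, map_natCast] at h3
  have h4 : ((m : ℕ) : 𝓞 M) = w * (((m : ℕ) : 𝓞 M) * w ^ (m - 1)) := by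
    have h5 : w * w ^ (m - 1) = 1 := by rw [← pow_succ', Nat.sub_add_cancel hm, hwm]
    linear_combination -((m : ℕ) : 𝓞 M) * h5
  rw [h4, h3]
  exact Ideal.mul_mem_left _ _ (Ideal.mul_mem_right _ _ h1)

theorem DFL_norm (M : Type) [Field M] [NumberField M] (m : ℕ) :
    Ideal.absNorm (Ideal.span {((m : ℕ) : 𝓞 M)}) = m ^ Module.finrank ℚ M := by
  rw [Ideal.absNorm_span_singleton]
  have h1 : ((m : ℕ) : 𝓞 M) = algebraMap ℤ (𝓞 M) (m : ℤ) := by simp
  rw [h1, Algebra.norm_algebraMap, RingOfIntegers.rank, Int.natAbs_pow, Int.natAbs_natCast]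

theorem DFL : DFL_stmt := by
  intro F L M _ _ _ _ _ _ _ _ m z hm hz hadj
  refine ⟨?_, ?_, ?_⟩
  · have h1 : (discr F).natAbs ∣ (discr M).natAbs := Int.natAbs_dvd_natAbs.2 (discr_dvd_discr F M)
    have h2 : (discr F).natAbs ≤ (discr M).natAbs :=
      Nat.le_of_dvd (Nat.pos_of_ne_zero (Int.natAbs_ne_zero.2 (discr_ne_zero M))) h1
    refine h2.trans ?_
    rw [natAbs_discr_eq_absNorm_differentIdeal_mul_natAbs_discr_pow L (𝓞 L) M (𝓞 M)]
    refine Nat.mul_le_mul_right _ ?_
    have h3 : Ideal.absNorm (differentIdeal (𝓞 L) (𝓞 M)) ∣ Ideal.absNorm (Ideal.span {((m : ℕ) : 𝓞 M)}) := by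
      apply map_dvd
      rw [Ideal.dvd_span_singleton]
      exact DFL_mem L M m z hm hz hadj
    rw [DFL_norm] at h3
    exact Nat.le_of_dvd (pow_pos hm _) h3
  · have hint : IsIntegral L z := Algebra.IsIntegral.isIntegral z
    have h1 : IntermediateField.adjoin L {z} = ⊤ := by
      rw [eq_top_iff]
      intro x _
      apply IntermediateField.algebra_adjoin_le_adjoin L {z}
      rw [hadj]
      exact Algebra.mem_top
    have h2 : Module.finrank L M = (minpoly L z).natDegree := by
      rw [← IntermediateField.finrank_top' (F := L) (E := M), ← h1, IntermediateField.adjoin.finrank hint]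
    have h3 : minpoly L z ∣ (Polynomial.X ^ m - 1 : Polynomial L) := by
      apply minpoly.dvd
      rw [map_sub, map_pow, Polynomial.aeval_X, map_one, hz.pow_eq_one, sub_self]
    have h4 : (Polynomial.X ^ m - 1 : Polynomial L) ≠ 0 := (Polynomial.monic_X_pow_sub_C (1 : L) hm.ne').ne_zero
    have h5 := Polynomial.natDegree_le_of_dvd h3 h4
    rw [h2]
    refine h5.trans (le_of_eq ?_)
    exact Polynomial.natDegree_X_pow_sub_C (r := (1 : L))
  · have h1 := Module.finrank_mul_finrank ℚ F M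
    have h2 : 0 < Module.finrank F M := Module.finrank_pos
    rw [← h1]
    exact Nat.le_mul_of_pos_right _ h2

end Pool.Agent.CH
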