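import Pool.Agent.helper82.CH.SpecN

/-!
# Row chn:ELW: lower bound for the L-series on the line `Re s = 2`
-/

set_option autoImplicit false

open NumberField Complex Pool.Agent.UN

namespace Pool.Agent.CH

theorem ELW_one {F : Type} [Field F] [NumberField F] (χ : Ideal (𝓞 F) → ℂ) (hχ : CM χ) : cc χ 1 = 1 := by
  unfold cc
  have h : idl F 1 = {⊤} := by
    ext a
    unfold idl
    rw [Set.Finite.mem_toFinset, Finset.mem_singleton]
    exact Ideal.absNorm_eq_one_iff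
  rw [h, Finset.sum_singleton, hχ.one]

/-- the terms of the logarithm -/
theorem ELW_term {F : Type} [Field F] [NumberField F] (χ : Ideal (𝓞 F) → ℂ)
    (hz : ∀ k : ℕ, ‖zz χ k‖ ≤ Module.finrank ℚ F * ArithmeticFunction.vonMangoldt k) (n : ℕ)
    (hn : Module.finrank ℚ F ≤ n) (s : ℂ) (hs : s.re = 2) (k : ℕ) :
    ‖LSeries.term (lg χ) s k‖ ≤ (n : ℝ) * (1 / (k : ℝ) ^ 2) := by
  rw [LSeries.norm_term_eq]
  split_ifs with h
  · positivity
  · have hk : 1 ≤ k := Nat.one_le_iff_ne_zero.2 h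
    have hpow : (k : ℝ) ^ s.re = (k : ℝ) ^ 2 := by
      rw [hs]
      exact_mod_cast Real.rpow_natCast (k : ℝ) 2
    have hlg : ‖lg χ k‖ ≤ n := by
      unfold lg
      rw [norm_div, Complex.norm_real, Real.norm_eq_abs]
      rcases hk.eq_or_lt with h1 | h1
      · rw [← h1]
        simp
      · have hl : 0 < Real.log k := Real.log_pos (by exact_mod_cast h1)
        rw [abs_of_pos hl, div_le_iff₀ hl]
        calc ‖zz χ k‖ ≤ Module.finrank ℚ F * ArithmeticFunction.vonMangoldt k := hz k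
          _ ≤ Module.finrank ℚ F * Real.log k :=
              mul_le_mul_of_nonneg_left ArithmeticFunction.vonMangoldt_le_log (Nat.cast_nonneg _)
          _ ≤ n * Real.log k := mul_le_mul_of_nonneg_right (by exact_mod_cast hn) hl.le
    rw [hpow, mul_one_div]
    exact div_le_div_of_nonneg_right hlg (by positivity)

theorem ELW (hCID : CID_stmt) (hCSM : CSM_stmt) (hEXL : EXL_stmt) (hZBD : ZBD_stmt) : ELW_stmt := by
  intro n
  have hsum : Summable fun k : ℕ => (n : ℝ) * (1 / (k : ℝ) ^ 2) :=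
    (Real.summable_one_div_nat_pow.2 one_lt_two).mul_left _
  refine ⟨1 + ∑' k : ℕ, (n : ℝ) * (1 / (k : ℝ) ^ 2), ?_, ?_⟩
  · have h1 : 0 ≤ ∑' k : ℕ, (n : ℝ) * (1 / (k : ℝ) ^ 2) := tsum_nonneg fun k => by positivity
    linarith
  intro F _ _ χ hn hχ t
  have hs : ((2 : ℂ) + t * I).re = 2 := by simp
  have hs1 : 1 < ((2 : ℂ) + t * I).re := by rw [hs]; norm_num
  obtain ⟨h1, -⟩ := hEXL (cc χ) (zz χ) (ELW_one χ hχ) (fun s hs => ⟨(hCSM F χ hχ s hs).1, (hCSM F χ hχ s hs).2.1⟩)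
    (fun n hn => hCID F χ hχ n hn) (fun s hs => (hCSM F χ hχ s hs).2.2) _ hs1
  rw [← h1, Complex.norm_exp, Real.exp_le_exp]
  have h2 : ‖LSeries (lg χ) (2 + t * I)‖ ≤ ∑' k : ℕ, (n : ℝ) * (1 / (k : ℝ) ^ 2) :=
    tsum_of_norm_bounded hsum.hasSum (ELW_term χ (hZBD F χ hχ).1 n hn _ hs)
  have h3 : |(LSeries (lg χ) (2 + t * I)).re| ≤ ‖LSeries (lg χ) (2 + t * I)‖ := Complex.abs_re_le_norm _
  have h4 := (abs_le.1 (h3.trans h2)).1
  have h5 : (LSeries (fun n => zz χ n / (Real.log n : ℂ)) (2 + t * I)).re = (LSeries (lg χ) (2 + t * I)).re := rfl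
  rw [h5]
  linarith

end Pool.Agent.CH
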